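import Pool.Agent.Y113.MT.BStm

/-!
# UNI: a polarised Hodge structure is determined by its Hodge filtration
-/

set_option autoImplicit false

open Matrix

namespace Pool.Agent.Y651.MT

open Pool.Agent.Y113.MT

variable {n : ℕ} {Fil : ℕ → Submodule ℂ (Fin n → ℂ)} {A : Matrix (Fin n) (Fin n) ℚ} {H : ℕ → Submodule ℂ (Fin n → ℂ)}

lemma mem_fil (h : Polarised Fil A H) (p : ℕ) {v : Fin n → ℂ} (hv : v ∈ Fil p) :
    ∃ w : ℕ → (Fin n → ℂ), (∀ r, w r ∈ H r) ∧ v = ∑ r ∈ Finset.Ico p n, w r := by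
  rw [h.fil p] at hv
  have h1 : v ∈ ⨆ i ∈ Finset.Ico p n, H i := by
    have h2 : (⨆ r : {r : ℕ // p ≤ r ∧ r < n}, H r) ≤ ⨆ i ∈ Finset.Ico p n, H i :=
      iSup_le fun r => le_iSup₂_of_le r.1 (Finset.mem_Ico.2 r.2) le_rfl
    exact h2 hv
  obtain ⟨μ, hμ⟩ := (Submodule.mem_iSup_finset_iff_exists_sum _ _).1 h1
  exact ⟨fun r => (μ r : Fin n → ℂ), fun r => (μ r).2, hμ.symm⟩

lemma H_le_fil (h : Polarised Fil A H) {p r : ℕ} (h1 : p ≤ r) (h2 : r < n) : H r ≤ Fil p := by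
  rw [h.fil p]
  exact le_iSup (fun r : {r : ℕ // p ≤ r ∧ r < n} => H r) ⟨r, h1, h2⟩

lemma orth_fil (h : Polarised Fil A H) {p : ℕ} (hp : p < n) {u v : Fin n → ℂ} (hu : u ∈ Fil (p + 1)) (hv : v ∈ H p) :
    u ⬝ᵥ (cq A *ᵥ fun i => star (v i)) = 0 := by
  obtain ⟨w, hw, rfl⟩ := mem_fil h _ hu
  rw [sum_dotProduct]
  refine Finset.sum_eq_zero fun r hr => ?_
  rw [Finset.mem_Ico] at hr
  exact h.orth r hr.2 (n - 1 - p) (by omega) (by omega) _ (hw r) _ (h.conj p hp v hv)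

lemma dot_sum (u : Fin n → ℂ) (s : Finset ℕ) (w : ℕ → (Fin n → ℂ)) :
    u ⬝ᵥ (cq A *ᵥ fun i => star ((∑ r ∈ s, w r) i)) = ∑ r ∈ s, u ⬝ᵥ (cq A *ᵥ fun i => star (w r i)) := by
  have h1 : (fun i => star ((∑ r ∈ s, w r) i)) = ∑ r ∈ s, fun i => star (w r i) := by
    funext i
    rw [Finset.sum_apply, Finset.sum_apply, star_sum]
  rw [h1, ← Matrix.mulVecLin_apply, map_sum, dotProduct_sum]
  rfl

lemma half {m : ℕ} {Fil Fil' : ℕ → Submodule ℂ (Fin (2 * m) → ℂ)} {A : Matrix (Fin (2 * m)) (Fin (2 * m)) ℚ}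
    {H H' : ℕ → Submodule ℂ (Fin (2 * m) → ℂ)} (h : Polarised Fil A H) (h' : Polarised Fil' A H')
    (hF : ∀ p, m ≤ p → Fil p = Fil' p) {p : ℕ} (hp : m ≤ p) (hp2 : p < 2 * m) : H p ≤ H' p := by
  intro v hv
  have hv1 : v ∈ Fil' p := by
    rw [← hF p hp]
    exact H_le_fil h le_rfl hp2 hv
  obtain ⟨w, hw, hvw⟩ := mem_fil h' p hv1
  have key : ∀ s ∈ Finset.Ico p (2 * m), s ≠ p → w s = 0 := by
    intro s hs hsp
    rw [Finset.mem_Ico] at hs
    by_contra hne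
    have h1 : w s ∈ Fil (p + 1) := by
      rw [hF (p + 1) (by omega)]
      exact H_le_fil h' (by omega) hs.2 (hw s)
    have h2 := orth_fil h hp2 h1 hv
    have h3 : w s ⬝ᵥ (cq A *ᵥ fun i => star (v i)) = w s ⬝ᵥ (cq A *ᵥ fun i => star (w s i)) := by
      rw [hvw, dot_sum]
      refine Finset.sum_eq_single s (fun r hr hrs => ?_) (fun hh => ?_)
      · rw [Finset.mem_Ico] at hr
        exact h'.orth s hs.2 (2 * m - 1 - r) (by omega) (by omega) _ (hw s) _ (h'.conj r hr.2 _ (hw r))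
      · exact absurd (Finset.mem_Ico.2 hs) hh
    obtain ⟨ε, _, hpos⟩ := h'.pos
    have h4 := hpos s hs.2 (w s) (hw s) hne
    rw [← h3, h2, mul_zero] at h4
    simp at h4
  have h5 : v = w p := by
    rw [hvw]
    exact Finset.sum_eq_single p key (fun hh => absurd (Finset.mem_Ico.2 ⟨le_rfl, hp2⟩) hh)
  rw [h5]
  exact hw p

lemma half' {m : ℕ} {Fil Fil' : ℕ → Submodule ℂ (Fin (2 * m) → ℂ)} {A : Matrix (Fin (2 * m)) (Fin (2 * m)) ℚ}
    {H H' : ℕ → Submodule ℂ (Fin (2 * m) → ℂ)} (h : Polarised Fil A H) (h' : Polarised Fil' A H')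
    (hF : ∀ p, m ≤ p → Fil p = Fil' p) {p : ℕ} (hp2 : p < 2 * m) : H p ≤ H' p := by
  rcases le_or_gt m p with hp | hp
  · exact half h h' hF hp hp2
  · intro v hv
    have h1 := half h h' hF (p := 2 * m - 1 - p) (by omega) (by omega) (h.conj p hp2 v hv)
    have h2 := h'.conj _ (by omega) _ h1
    have h3 : 2 * m - 1 - (2 * m - 1 - p) = p := by omega
    rw [h3] at h2
    simpa only [star_star] using h2

theorem uni : S_UNI := by
  intro m Fil Fil' A H H' h h' hF p hp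
  exact le_antisymm (half' h h' hF hp) (half' h' h (fun p hp => (hF p hp).symm) hp)

end Pool.Agent.Y651.MT
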